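import Mathlib

set_option autoImplicit false

namespace Pool.Agent.Results.MP_2d1f13_nt.Disproof

open Polynomial

/-- The field of algebraic numbers. -/
abbrev Qbar : Type := AlgebraicClosure ℚ

/-- The algebraic points of projective `N`-space. -/
abbrev Proj (N : ℕ) : Type := Projectivization Qbar (Fin (N + 1) → Qbar)

/-- The value, at the parameter `t` and at the vector `v`, of a polynomial `q` in the homogeneous
coordinates whose coefficients are polynomials in the parameter with rational coefficients. -/
noncomputable def valueQ {N : ℕ} (t : Qbar) (v : Fin (N + 1) → Qbar)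
    (q : MvPolynomial (Fin (N + 1)) ℚ[X]) : Qbar :=
  MvPolynomial.eval₂ (Polynomial.aeval t : ℚ[X] →ₐ[ℚ] Qbar).toRingHom v q

/-- The value, at the parameter `t` and at the vector `v`, of a polynomial `q` in the homogeneous
coordinates whose coefficients are polynomials in the parameter with algebraic coefficients. -/
noncomputable def valueQbar {N : ℕ} (t : Qbar) (v : Fin (N + 1) → Qbar)
    (q : MvPolynomial (Fin (N + 1)) Qbar[X]) : Qbar :=
  MvPolynomial.eval₂ (Polynomial.evalRingHom t) v q

/-- An algebraic family, defined over `ℚ` and parametrised by the affine line, of degree `d`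
endomorphisms of projective `N`-space: `N + 1` forms of degree `d` whose coefficients are rational
polynomials in the parameter, and which have no common zero at any algebraic parameter. -/
structure Family (N d : ℕ) where
  form : Fin (N + 1) → MvPolynomial (Fin (N + 1)) ℚ[X]
  homog : ∀ i, (form i).IsHomogeneous d
  noZero : ∀ (t : Qbar) (v : Fin (N + 1) → Qbar), v ≠ 0 → (fun i => valueQ t v (form i)) ≠ 0

/-- The member `f_t` of the family, as a self-map of the algebraic points of projective space. -/
noncomputable def Family.map {N d : ℕ} (f : Family N d) (t : Qbar) (P : Proj N) : Proj N :=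
  Projectivization.mk Qbar (fun i => valueQ t P.rep (f.form i)) (f.noZero t P.rep P.rep_nonzero)

/-- A marked point: a morphism, defined over `ℚ`, from the affine line to projective `N`-space. -/
structure MarkedPoint (N : ℕ) where
  coord : Fin (N + 1) → ℚ[X]
  noZero : ∀ t : Qbar, (fun i => Polynomial.aeval t (coord i)) ≠ (0 : Fin (N + 1) → Qbar)

/-- The value `a_t` of the marked point at the parameter `t`. -/
noncomputable def MarkedPoint.point {N : ℕ} (a : MarkedPoint N) (t : Qbar) : Proj N :=
  Projectivization.mk Qbar (fun i => Polynomial.aeval t (a.coord i)) (a.noZero t)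

/-- Two self-maps of projective `N`-space are conjugate if a projective linear automorphism
carries one to the other. -/
def Conjugate {N : ℕ} (g h : Proj N → Proj N) : Prop :=
  ∃ A : (Fin (N + 1) → Qbar) ≃ₗ[Qbar] (Fin (N + 1) → Qbar), ∀ P : Proj N,
    h (Projectivization.map A.toLinearMap A.injective P) =
      Projectivization.map A.toLinearMap A.injective (g P)

/-- The family is maximal varying: every conjugacy class meets it in finitely many members. -/
def Family.MaximalVarying {N d : ℕ} (f : Family N d) : Prop :=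
  ∀ s : Qbar, {t : Qbar | Conjugate (f.map s) (f.map t)}.Finite

/-- The field of definition of an algebraic point of projective `N`-space, generated over `ℚ` by
the quotients of its homogeneous coordinates. -/
noncomputable def fieldOf {N : ℕ} (P : Proj N) : IntermediateField ℚ Qbar :=
  IntermediateField.adjoin ℚ {z | ∃ i j, P.rep j ≠ 0 ∧ z = P.rep i / P.rep j}

/-- The iterated preimages of `a` under `g`, of degree at most `D` over `ℚ`. -/
def Preim {N : ℕ} (g : Proj N → Proj N) (a : Proj N) (D : ℕ) : Set (Proj N) :=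
  {x | Module.rank ℚ (fieldOf x) ≤ (D : Cardinal) ∧ ∃ n : ℕ, g^[n] x = a}

/-- Zariski-closed subsets of the product of the affine line and projective `N`-space: common
zero loci of sets of polynomials that are homogeneous in the projective coordinates. -/
def IsZariskiClosed {N : ℕ} (V : Set (Qbar × Proj N)) : Prop :=
  ∃ S : Set (MvPolynomial (Fin (N + 1)) Qbar[X]), (∀ q ∈ S, ∃ e : ℕ, q.IsHomogeneous e) ∧
    V = {z | ∀ q ∈ S, valueQbar z.1 z.2.rep q = 0}

/-! ### Elementary facts -/

theorem valueQbar_smul {N : ℕ} (t c : Qbar) (v : Fin (N + 1) → Qbar) {e : ℕ}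
    (q : MvPolynomial (Fin (N + 1)) Qbar[X]) (hq : q.IsHomogeneous e) :
    valueQbar t (c • v) q = c ^ e * valueQbar t v q := by
  unfold valueQbar
  rw [MvPolynomial.eval₂_eq, MvPolynomial.eval₂_eq, Finset.mul_sum]
  refine Finset.sum_congr rfl fun m hm => ?_
  have h1 : ∏ i ∈ m.support, (c • v) i ^ m i = c ^ e * ∏ i ∈ m.support, v i ^ m i := by
    have h2 : ∑ i ∈ m.support, m i = e := by
      have := hq (MvPolynomial.mem_support_iff.mp hm)
      rw [← this, Finsupp.weight_apply]
      simp [Finsupp.sum]
    rw [← h2, ← Finset.prod_pow_eq_pow_sum, ← Finset.prod_mul_distrib]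
    refine Finset.prod_congr rfl fun i _ => ?_
    simp [mul_pow]
  rw [h1]
  ring

/-! ### The family -/

/-- The map `v ↦ (v_0^d + c v_z^d, …, v_n^d + c v_z^d, v_{n+1}^d, v_z^d)` with `z = n + 2`. -/
noncomputable def G (n d : ℕ) (c : Qbar) (v : Fin (n + 2 + 1) → Qbar) : Fin (n + 2 + 1) → Qbar :=
  fun i => v i ^ d + (if i.val ≤ n then c * v (Fin.last (n + 2)) ^ d else 0)

/-- The forms defining the family. -/
noncomputable def famForm (n d : ℕ) (i : Fin (n + 2 + 1)) : MvPolynomial (Fin (n + 2 + 1)) ℚ[X] :=
  MvPolynomial.X i ^ d +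
    (if i.val ≤ n then
      MvPolynomial.C (X - X ^ d) * MvPolynomial.X (Fin.last (n + 2)) ^ d else 0)

theorem famForm_homog (n d : ℕ) (i : Fin (n + 2 + 1)) : (famForm n d i).IsHomogeneous d := by
  unfold famForm
  refine MvPolynomial.IsHomogeneous.add ?_ ?_
  · simpa using (MvPolynomial.isHomogeneous_X ℚ[X] i).pow d
  · split_ifs
    · refine MvPolynomial.IsHomogeneous.C_mul ?_ _
      simpa using (MvPolynomial.isHomogeneous_X ℚ[X] (Fin.last (n + 2))).pow d
    · exact MvPolynomial.isHomogeneous_zero _ _ _

theorem valueQ_famForm (n d : ℕ) (t : Qbar) (v : Fin (n + 2 + 1) → Qbar) :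
    (fun i => valueQ t v (famForm n d i)) = G n d (t - t ^ d) v := by
  funext i
  unfold valueQ famForm G
  split_ifs
  · simp [MvPolynomial.eval₂_add, MvPolynomial.eval₂_mul, MvPolynomial.eval₂_pow]
  · simp [MvPolynomial.eval₂_pow]

theorem G_ne_zero {n d : ℕ} (hd : d ≠ 0) (c : Qbar) (v : Fin (n + 2 + 1) → Qbar) (hv : v ≠ 0) :
    G n d c v ≠ 0 := by
  intro h
  have hl : v (Fin.last (n + 2)) = 0 := by
    have := congrFun h (Fin.last (n + 2))
    simp [G, Fin.last] at this
    exact this.1
  apply hv
  funext i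
  have := congrFun h i
  simp only [G, hl, zero_pow hd, mul_zero, ite_self, add_zero, Pi.zero_apply] at this
  simpa using pow_eq_zero_iff hd |>.mp this

theorem G_smul {n d : ℕ} (c a : Qbar) (v : Fin (n + 2 + 1) → Qbar) :
    G n d c (a • v) = a ^ d • G n d c v := by
  funext i
  simp only [G, Pi.smul_apply, smul_eq_mul]
  split_ifs <;> ring

/-- The family `f_s = (x_0^d + (s - s^d) z^d, …, x_n^d + (s - s^d) z^d, y^d, z^d)`. -/
noncomputable def fam (n d : ℕ) (hd : d ≠ 0) : Family (n + 2) d where
  form := famForm n d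
  homog := famForm_homog n d
  noZero t v hv := by
    rw [valueQ_famForm]
    exact G_ne_zero hd _ v hv

/-- The marked point `a_s = (s, …, s, 1)`. -/
noncomputable def mark (n : ℕ) : MarkedPoint (n + 2) where
  coord i := if i.val ≤ n + 1 then X else 1
  noZero t := by
    intro h
    have := congrFun h (Fin.last (n + 2))
    simp [Fin.last] at this

theorem map_mk {n d : ℕ} (hd : d ≠ 0) (t : Qbar) (v : Fin (n + 2 + 1) → Qbar) (hv : v ≠ 0) :
    (fam n d hd).map t (Projectivization.mk Qbar v hv) =
      Projectivization.mk Qbar (G n d (t - t ^ d) v) (G_ne_zero hd _ v hv) := by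
  obtain ⟨a, ha⟩ := Projectivization.exists_smul_eq_mk_rep Qbar v hv
  unfold Family.map
  rw [Projectivization.mk_eq_mk_iff']
  refine ⟨(a : Qbar) ^ d, ?_⟩
  have h1 : (fun i => valueQ t (Projectivization.mk Qbar v hv).rep ((fam n d hd).form i)) =
      G n d (t - t ^ d) (Projectivization.mk Qbar v hv).rep := valueQ_famForm n d t _
  rw [h1, ← ha]
  exact (G_smul _ _ _).symm

theorem exists_root {d : ℕ} (hd : 2 ≤ d) : ∃ z : Qbar, z ^ d = 1 ∧ z ≠ 1 := by
  have h0 : (d : Qbar) ≠ 0 := by
    exact_mod_cast (by omega : d ≠ 0)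
  have : NeZero (d : Qbar) := ⟨h0⟩
  have : NeZero d := ⟨by omega⟩
  obtain ⟨z, hz⟩ := HasEnoughRootsOfUnity.exists_primitiveRoot Qbar d
  exact ⟨z, hz.pow_eq_one, hz.ne_one (by omega)⟩

/-! ### Maximal variation -/

/-- The relation between the parameters expressed by conjugacy. -/
def Rel (n d : ℕ) (A : (Fin (n + 2 + 1) → Qbar) ≃ₗ[Qbar] (Fin (n + 2 + 1) → Qbar))
    (c c' : Qbar) : Prop :=
  ∀ v, v ≠ 0 → ∃ l : Qbar, l ≠ 0 ∧ G n d c' (A v) = l • A (G n d c v)

theorem Rel.symm {n d : ℕ} {A : (Fin (n + 2 + 1) → Qbar) ≃ₗ[Qbar] (Fin (n + 2 + 1) → Qbar)}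
    {c c' : Qbar} (h : Rel n d A c c') : Rel n d A.symm c' c := by
  intro w hw
  have hv : A.symm w ≠ 0 := by
    intro h0
    apply hw
    simpa using congrArg A h0
  obtain ⟨l, hl, h1⟩ := h (A.symm w) hv
  refine ⟨l⁻¹, inv_ne_zero hl, ?_⟩
  rw [LinearEquiv.apply_symm_apply] at h1
  rw [h1, map_smul, LinearEquiv.symm_apply_apply, smul_smul, inv_mul_cancel₀ hl, one_smul]

theorem rel_of_conjugate {n d : ℕ} (hd : d ≠ 0) {s t : Qbar}
    (h : Conjugate ((fam n d hd).map s) ((fam n d hd).map t)) :
    ∃ A, Rel n d A (s - s ^ d) (t - t ^ d) := by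
  obtain ⟨A, hA⟩ := h
  refine ⟨A, fun v hv => ?_⟩
  have hAv : A v ≠ 0 := by
    intro h0
    apply hv
    simpa using congrArg A.symm h0
  have h1 := hA (Projectivization.mk Qbar v hv)
  rw [Projectivization.map_mk, map_mk, map_mk, Projectivization.map_mk,
    Projectivization.mk_eq_mk_iff'] at h1
  obtain ⟨a, ha⟩ := h1
  refine ⟨a, ?_, ha.symm⟩
  rintro rfl
  rw [zero_smul] at ha
  exact G_ne_zero hd _ _ hAv ha.symm

/-- `A` sends each basis vector to a multiple of a basis vector. -/
theorem monomial_of_rel {n d : ℕ} (hd : 2 ≤ d)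
    {A : (Fin (n + 2 + 1) → Qbar) ≃ₗ[Qbar] (Fin (n + 2 + 1) → Qbar)}
    {c c' : Qbar} (h : Rel n d A c c') (k : Fin (n + 2 + 1)) :
    ∃ i, ∃ a : Qbar, a ≠ 0 ∧ A (Pi.single k 1) = Pi.single i a := by
  classical
  obtain ⟨z, hz, hz1⟩ := exists_root hd
  have hd0 : d ≠ 0 := by omega
  -- the deck transformation
  have key : ∀ w : Fin (n + 2 + 1) → Qbar, ∀ i, w i = 0 →
      (A.symm w) k * (A (Pi.single k 1)) i = 0 := by
    intro w i hwi
    by_cases hw : w = 0
    · subst hw
      simp
    set v := A.symm w with hv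
    have hv0 : v ≠ 0 := by
      intro h0
      apply hw
      have := congrArg A h0
      simpa [hv] using this
    set v' := Function.update v k (z * v k) with hv'
    have hz0 : z ≠ 0 := by
      rintro rfl
      rw [zero_pow hd0] at hz
      exact zero_ne_one hz
    have hv'0 : v' ≠ 0 := by
      intro h0
      apply hv0
      funext j
      by_cases hj : j = k
      · subst hj
        have := congrFun h0 j
        simp [hv'] at this
        rcases this with h | h
        · exact absurd h hz0
        · simpa using h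
      · have := congrFun h0 j
        simpa [hv', hj] using this
    have hG : G n d c v' = G n d c v := by
      have hp : ∀ j, v' j ^ d = v j ^ d := by
        intro j
        by_cases hj : j = k
        · subst hj
          simp [hv', mul_pow, hz]
        · simp [hv', hj]
      funext j
      simp only [G, hp]
    obtain ⟨l, hl, h1⟩ := h v hv0
    obtain ⟨l', hl', h2⟩ := h v' hv'0
    have hAv : A v = w := by simp [hv]
    -- `A v' = w + (z - 1) v_k A e_k`
    have hAv' : A v' = w + ((z - 1) * v k) • A (Pi.single k 1) := by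
      have : v' = v + ((z - 1) * v k) • (Pi.single k 1 : Fin (n + 2 + 1) → Qbar) := by
        funext j
        by_cases hj : j = k
        · subst hj
          simp [hv']
          ring
        · simp [hv', hj]
      rw [this, map_add, map_smul, hAv]
    -- proportionality of the images
    have hprop : G n d c' (A v') = (l' * l⁻¹) • G n d c' w := by
      rw [h2, hG, ← hAv, h1, smul_smul]
      congr 1
      field_simp
    set m := l' * l⁻¹ with hm
    have hlast : (A v') (Fin.last (n + 2)) ^ d = m * w (Fin.last (n + 2)) ^ d := by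
      have := congrFun hprop (Fin.last (n + 2))
      simpa [G, Fin.last] using this
    have hi : (A v') i ^ d = m * w i ^ d := by
      have := congrFun hprop i
      simp only [G, Pi.smul_apply, smul_eq_mul] at this
      split_ifs at this with hin
      · rw [hlast] at this
        linear_combination this
      · simpa using this
    rw [hwi, zero_pow hd0, mul_zero] at hi
    have hi' := pow_eq_zero_iff hd0 |>.mp hi
    rw [hAv'] at hi'
    simp only [Pi.add_apply, hwi, zero_add, Pi.smul_apply, smul_eq_mul] at hi'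
    have hzz : z - 1 ≠ 0 := sub_ne_zero.mpr hz1
    have : (z - 1) * (v k * (A (Pi.single k 1)) i) = 0 := by linear_combination hi'
    rcases mul_eq_zero.mp this with h | h
    · exact absurd h hzz
    · exact h
  -- find a nonzero entry
  have hne : A (Pi.single k 1) ≠ 0 := by
    intro h0
    have := congrArg A.symm h0
    simp at this
  obtain ⟨i, hi⟩ : ∃ i, (A (Pi.single k 1)) i ≠ 0 := by
    by_contra hcon
    push Not at hcon
    exact hne (funext hcon)
  refine ⟨i, (A (Pi.single k 1)) i, hi, ?_⟩
  funext j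
  by_cases hj : j = i
  · subst hj
    simp
  rw [Pi.single_eq_of_ne hj]
  by_contra hne'
  -- all of `A.symm (e_m) k` vanish
  have hall : ∀ m, (A.symm (Pi.single m 1)) k = 0 := by
    intro m
    by_cases hm : m = i
    · have := key (Pi.single m 1) j (by rw [Pi.single_eq_of_ne]; rw [hm]; exact hj)
      rcases mul_eq_zero.mp this with h | h
      · exact h
      · exact absurd h hne'
    · have := key (Pi.single m 1) i (by rw [Pi.single_eq_of_ne]; exact fun h => hm h.symm)
      rcases mul_eq_zero.mp this with h | h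
      · exact h
      · exact absurd h hi
  have hzero : ∀ w : Fin (n + 2 + 1) → Qbar, (A.symm w) k = 0 := by
    intro w
    have hw : w = ∑ m, w m • (Pi.single m (1 : Qbar) : Fin (n + 2 + 1) → Qbar) := by
      funext j
      simp [Finset.sum_apply, Pi.single_apply]
    rw [hw, map_sum]
    simp [Finset.sum_apply, hall]
  have := hzero (A (Pi.single k 1))
  simp at this

/-- The relation forces the two parameters to agree up to a root of unity. -/
theorem rel_eq_aux {n d : ℕ} (hd : 2 ≤ d)
    {A : (Fin (n + 2 + 1) → Qbar) ≃ₗ[Qbar] (Fin (n + 2 + 1) → Qbar)}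
    {c c' : Qbar} (h : Rel n d A c c') (hc : c ≠ 0) : c' ^ (d - 1) = c ^ (d - 1) := by
  classical
  have hd0 : d ≠ 0 := by omega
  choose p a ha hp using monomial_of_rel hd h
  have hpinj : Function.Injective p := by
    intro j k hjk
    by_contra hne
    have h1 : A ((a k) • Pi.single j 1 - (a j) • Pi.single k 1) = 0 := by
      rw [map_sub, map_smul, map_smul, hp, hp, hjk]
      funext i
      by_cases hi : i = p k
      · subst hi
        simp
        ring
      · simp [hi]
    have h2 := congrArg A.symm h1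
    rw [LinearEquiv.symm_apply_apply, map_zero] at h2
    have h3 := congrFun h2 j
    simp [hne] at h3
    exact ha k h3
  set z : Fin (n + 2 + 1) := Fin.last (n + 2) with hz
  -- coordinates of `A w`
  have hAw : ∀ (w : Fin (n + 2 + 1) → Qbar) (k : Fin (n + 2 + 1)),
      (A w) (p k) = a k * w k := by
    intro w k
    have hw : w = ∑ m, w m • (Pi.single m (1 : Qbar) : Fin (n + 2 + 1) → Qbar) := by
      funext j
      simp [Finset.sum_apply, Pi.single_apply]
    conv_lhs => rw [hw]
    rw [map_sum, Finset.sum_apply]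
    rw [Finset.sum_eq_single k]
    · rw [map_smul, hp]
      simp
      ring
    · intro m _ hm
      rw [map_smul, hp]
      have : p k ≠ p m := fun h => hm (hpinj h).symm
      simp [this]
    · intro hk
      exact absurd (Finset.mem_univ k) hk
  have hz0 : (0 : Fin (n + 2 + 1)) ≠ z := by
    intro h
    have := congrArg Fin.val h
    simp [hz, Fin.last] at this
  have hle0 : (0 : Fin (n + 2 + 1)).val ≤ n := by simp
  have hnz : ¬ (z.val ≤ n) := by simp [hz, Fin.last]
  -- evaluate at `e_z`
  obtain ⟨l, hl, h1⟩ := h (Pi.single z 1) (by simp)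
  have e0 := congrFun h1 (p 0)
  have ez := congrFun h1 (p z)
  rw [Pi.smul_apply, smul_eq_mul, hAw] at e0 ez
  have g0 : G n d c (Pi.single z 1) 0 = c := by
    simp [G, ← hz, hz0, hd0]
  have gz : G n d c (Pi.single z 1) z = 1 := by
    simp [G, hnz]
  rw [g0] at e0
  rw [gz] at ez
  have hrhs : l * (a 0 * c) ≠ 0 := mul_ne_zero hl (mul_ne_zero (ha 0) hc)
  -- `p z = z`
  have hpz : p z = z := by
    by_contra hne
    have : G n d c' (A (Pi.single z 1)) (p 0) = 0 := by
      rw [hp]
      have h2 : p 0 ≠ p z := fun h => hz0 (hpinj h)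
      have h3 : z ≠ p z := fun h => hne h.symm
      simp [G, ← hz, h2, h3, hd0]
    rw [this] at e0
    exact hrhs e0.symm
  have hp0z : p 0 ≠ z := fun h => hz0 (hpinj (h.trans hpz.symm))
  have hp0 : (p 0).val ≤ n := by
    by_contra hgt
    have : G n d c' (A (Pi.single z 1)) (p 0) = 0 := by
      rw [hp, hpz]
      simp [G, hp0z, hd0, hgt]
    rw [this] at e0
    exact hrhs e0.symm
  have E1 : a z ^ d = l * a z := by
    rw [hpz, hp, hpz] at ez
    have : G n d c' (Pi.single z (a z)) z = a z ^ d := by
      simp [G, hnz]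
    rw [this] at ez
    simpa using ez
  have E2 : c' * a z ^ d = l * (a 0 * c) := by
    have : G n d c' (A (Pi.single z 1)) (p 0) = c' * a z ^ d := by
      rw [hp, hpz]
      simp [G, ← hz, hp0z, hd0, hp0]
    rw [this] at e0
    exact e0
  have hlz : l = a z ^ (d - 1) := by
    have : a z * a z ^ (d - 1) = l * a z := by
      rw [← pow_succ', Nat.sub_add_cancel (by omega : 1 ≤ d)]
      exact E1
    exact (mul_right_cancel₀ (ha z) (by rw [← this]; ring)).symm
  have E3 : c' * a z = a 0 * c := by
    rw [E1] at E2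
    apply mul_left_cancel₀ hl
    linear_combination E2
  -- evaluate at `e_0 + e_z`
  set w : Fin (n + 2 + 1) → Qbar := Pi.single 0 1 + Pi.single z 1 with hw
  have hwz : w z = 1 := by simp [hw, hz0.symm]
  have hw0 : w 0 = 1 := by simp [hw, hz0]
  have hwne : w ≠ 0 := by
    intro h0
    have := congrFun h0 z
    rw [hwz] at this
    simp at this
  obtain ⟨l', hl', h2⟩ := h w hwne
  have f0 := congrFun h2 (p 0)
  have fz := congrFun h2 (p z)
  rw [Pi.smul_apply, smul_eq_mul, hAw] at f0 fz
  have hAwz : (A w) z = a z := by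
    have := hAw w z
    rw [hpz, hwz, mul_one] at this
    exact this
  have hAw0 : (A w) (p 0) = a 0 := by
    have := hAw w 0
    rw [hw0, mul_one] at this
    exact this
  have F1 : a z ^ d = l' * a z := by
    rw [hpz] at fz
    have k1 : G n d c' (A w) z = a z ^ d := by
      simp [G, hnz, hAwz]
    have k2 : G n d c w z = 1 := by
      simp [G, hnz, hwz]
    rw [k1, k2, mul_one] at fz
    exact fz
  have F2 : a 0 ^ d + c' * a z ^ d = l' * (a 0 * (1 + c)) := by
    have k1 : G n d c' (A w) (p 0) = a 0 ^ d + c' * a z ^ d := by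
      simp [G, ← hz, hp0, hAw0, hAwz]
    have k2 : G n d c w 0 = 1 + c := by
      simp [G, ← hz, hw0, hwz]
    rw [k1, k2] at f0
    exact f0
  have hll : l' = l := by
    apply mul_right_cancel₀ (ha z)
    rw [← F1, E1]
  rw [hll] at F2
  have F3 : a 0 ^ d = l * a 0 := by
    rw [E2] at F2
    linear_combination F2
  have hl0 : l = a 0 ^ (d - 1) := by
    have : a 0 * a 0 ^ (d - 1) = l * a 0 := by
      rw [← pow_succ', Nat.sub_add_cancel (by omega : 1 ≤ d)]
      exact F3
    exact (mul_right_cancel₀ (ha 0) (by rw [← this]; ring)).symm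
  have : (c' * a z) ^ (d - 1) = (a 0 * c) ^ (d - 1) := by rw [E3]
  rw [mul_pow, mul_pow, ← hl0, ← hlz] at this
  apply mul_left_cancel₀ hl
  linear_combination this

theorem rel_eq {n d : ℕ} (hd : 2 ≤ d)
    {A : (Fin (n + 2 + 1) → Qbar) ≃ₗ[Qbar] (Fin (n + 2 + 1) → Qbar)}
    {c c' : Qbar} (h : Rel n d A c c') : c' ^ (d - 1) = c ^ (d - 1) := by
  by_cases hc : c = 0
  · by_cases hc' : c' = 0
    · rw [hc, hc']
    · exact (rel_eq_aux hd h.symm hc').symm
  · exact rel_eq_aux hd h hc

theorem fam_maximalVarying {n d : ℕ} (hd : 2 ≤ d) :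
    (fam n d (by omega)).MaximalVarying := by
  classical
  intro s
  set k : Qbar := (s - s ^ d) ^ (d - 1) with hk
  set q : Qbar[X] := (X - X ^ d) ^ (d - 1) - C k with hq
  have hdeg : (X - X ^ d : Qbar[X]).natDegree = d := by
    rw [← Polynomial.natDegree_neg, neg_sub]
    rw [Polynomial.natDegree_sub_eq_left_of_natDegree_lt]
    · simp
    · rw [Polynomial.natDegree_X, Polynomial.natDegree_X_pow]
      omega
  have hq0 : q ≠ 0 := by
    intro h0
    have h1 : (X - X ^ d : Qbar[X]) ^ (d - 1) = C k := by
      rw [hq] at h0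
      exact sub_eq_zero.mp h0
    have h2 := congrArg Polynomial.natDegree h1
    rw [Polynomial.natDegree_pow, hdeg, Polynomial.natDegree_C] at h2
    rcases Nat.mul_eq_zero.mp h2 with h | h <;> omega
  refine (q.roots.toFinset.finite_toSet).subset ?_
  intro t ht
  obtain ⟨A, hA⟩ := rel_of_conjugate (by omega) ht
  have h1 := rel_eq hd hA
  simp only [Finset.mem_coe, Multiset.mem_toFinset]
  rw [Polynomial.mem_roots hq0]
  simp [hq, Polynomial.IsRoot, h1, hk]

/-! ### The backward orbit of the fixed point -/

/-- The polynomial map `x ↦ x^d + (t - t^d)`, which fixes `t`. -/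
noncomputable def g (d : ℕ) (t x : Qbar) : Qbar := x ^ d + (t - t ^ d)

/-- A backward orbit of the fixed point `t` of `g d t`. -/
theorem exists_backward {d : ℕ} (hd : 2 ≤ d) (t : Qbar) (ht : t ≠ 0) :
    ∃ η : ℕ → Qbar, Function.Injective η ∧ g d t (η 0) = t ∧ ∀ i, g d t (η (i + 1)) = η i := by
  obtain ⟨z, hz, hz1⟩ := exists_root hd
  have hroot : ∀ x : Qbar, ∃ y : Qbar, y ^ d = x := fun x =>
    IsAlgClosed.exists_pow_nat_eq x (by omega)
  choose r hr using hroot
  set η : ℕ → Qbar := fun i => Nat.rec (z * t) (fun _ x => r (x - (t - t ^ d))) i with hη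
  have h0 : g d t (η 0) = t := by
    simp [hη, g, mul_pow, hz]
  have hs : ∀ i, g d t (η (i + 1)) = η i := by
    intro i
    have : η (i + 1) = r (η i - (t - t ^ d)) := rfl
    rw [this, g, hr]
    ring
  have hfix : g d t t = t := by simp [g]
  have hit : ∀ i, (g d t)^[i + 1] (η i) = t := by
    intro i
    induction i with
    | zero => simpa using h0
    | succ i ih =>
      rw [Function.iterate_succ_apply, hs]
      exact ih
  have hit2 : ∀ i j, (g d t)^[j] (η (i + j)) = η i := by
    intro i j
    induction j with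
    | zero => simp
    | succ j ih =>
      rw [Function.iterate_succ_apply, ← add_assoc, hs]
      exact ih
  have hne : ∀ i, η i ≠ t := by
    intro i hi
    have h1 := hit2 0 i
    rw [zero_add, hi, Function.iterate_fixed hfix] at h1
    have h2 : η 0 = z * t := rfl
    rw [h2] at h1
    apply hz1
    apply mul_right_cancel₀ ht
    rw [one_mul]
    exact h1.symm
  refine ⟨η, ?_, h0, hs⟩
  have key : ∀ i j, i < j → η i ≠ η j := by
    intro i j hij h
    obtain ⟨l, rfl⟩ := Nat.exists_eq_add_of_lt hij
    have h1 := hit i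
    rw [h] at h1
    have h2 := hit2 l (i + 1)
    rw [show l + (i + 1) = i + l + 1 by ring] at h2
    rw [h2] at h1
    exact hne l h1
  intro i j hij
  rcases lt_trichotomy i j with h | h | h
  · exact absurd hij (key i j h)
  · exact h
  · exact absurd hij.symm (key j i h)

theorem iterate_of_backward {d : ℕ} {t : Qbar} {η : ℕ → Qbar} (h0 : g d t (η 0) = t)
    (hs : ∀ i, g d t (η (i + 1)) = η i) (i j : ℕ) (hij : i + 1 ≤ j) : (g d t)^[j] (η i) = t := by
  have hfix : g d t t = t := by simp [g]
  have hit : ∀ i, (g d t)^[i + 1] (η i) = t := by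
    intro i
    induction i with
    | zero => simpa using h0
    | succ i ih =>
      rw [Function.iterate_succ_apply, hs]
      exact ih
  obtain ⟨k, rfl⟩ := Nat.exists_eq_add_of_le hij
  rw [add_comm (i + 1) k, Function.iterate_add_apply, hit, Function.iterate_fixed hfix]

/-- All `η i` with `i ≤ m` lie in the field generated by `η m`, if `t` is rational. -/
theorem mem_adjoin_of_backward {d : ℕ} {τ : ℚ} {η : ℕ → Qbar}
    (hs : ∀ i, g d (algebraMap ℚ Qbar τ) (η (i + 1)) = η i) (m i : ℕ) (hi : i ≤ m) :
    η i ∈ IntermediateField.adjoin ℚ {η m} := by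
  obtain ⟨k, rfl⟩ := Nat.exists_eq_add_of_le hi
  clear hi
  induction k with
  | zero => exact IntermediateField.mem_adjoin_simple_self ℚ _
  | succ k ih =>
    have h1 : η (i + k) ∈ IntermediateField.adjoin ℚ {η (i + (k + 1))} := by
      have h2 : η (i + k) = g d (algebraMap ℚ Qbar τ) (η (i + (k + 1))) := (hs (i + k)).symm
      rw [h2, g]
      refine add_mem (pow_mem (IntermediateField.mem_adjoin_simple_self ℚ _) _) ?_
      refine sub_mem (algebraMap_mem _ _) (pow_mem (algebraMap_mem _ _) _)
    have h3 : IntermediateField.adjoin ℚ {η (i + k)} ≤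
        IntermediateField.adjoin ℚ {η (i + (k + 1))} := by
      rw [IntermediateField.adjoin_simple_le_iff]
      exact h1
    exact h3 ih

theorem rank_adjoin_backward {d : ℕ} (hd : 2 ≤ d) {τ : ℚ} {η : ℕ → Qbar}
    (h0 : g d (algebraMap ℚ Qbar τ) (η 0) = algebraMap ℚ Qbar τ)
    (hs : ∀ i, g d (algebraMap ℚ Qbar τ) (η (i + 1)) = η i) (m : ℕ) :
    Module.rank ℚ (IntermediateField.adjoin ℚ {η m}) ≤ ((d ^ (m + 1) : ℕ) : Cardinal) := by
  set p : ℚ[X] := X ^ d + C (τ - τ ^ d) with hp
  have hpdeg : p.natDegree = d := by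
    rw [hp, Polynomial.natDegree_add_C, Polynomial.natDegree_X_pow]
  have hev : ∀ k : ℕ, ∀ x : Qbar,
      Polynomial.aeval x (p.comp^[k] X) = (g d (algebraMap ℚ Qbar τ))^[k] x := by
    intro k
    induction k with
    | zero => intro x; simp
    | succ k ih =>
      intro x
      rw [Function.iterate_succ_apply', Function.iterate_succ_apply', Polynomial.aeval_comp, ih]
      simp [hp, g]
  set R : ℚ[X] := p.comp^[m + 1] X - C τ with hR
  have hRdeg : R.natDegree = d ^ (m + 1) := by
    rw [hR, Polynomial.natDegree_sub_C, Polynomial.natDegree_iterate_comp, hpdeg,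
      Polynomial.natDegree_X, mul_one]
  have hR0 : R ≠ 0 := by
    intro h
    rw [h, Polynomial.natDegree_zero] at hRdeg
    have : 0 < d ^ (m + 1) := pow_pos (by omega) _
    omega
  have hroot : Polynomial.aeval (η m) R = 0 := by
    rw [hR, map_sub, hev, Polynomial.aeval_C, iterate_of_backward h0 hs m (m + 1) le_rfl, sub_self]
  have hint : IsIntegral ℚ (η m) :=
    ((AlgebraicClosure.isAlgebraic ℚ).isAlgebraic (η m)).isIntegral
  have : FiniteDimensional ℚ (IntermediateField.adjoin ℚ {η m}) :=
    IntermediateField.adjoin.finiteDimensional hint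
  rw [← Module.finrank_eq_rank, IntermediateField.adjoin.finrank hint]
  have h1 : (minpoly ℚ (η m)).natDegree ≤ R.natDegree :=
    Polynomial.natDegree_le_of_dvd (minpoly.dvd ℚ _ hroot) hR0
  rw [hRdeg] at h1
  exact_mod_cast h1

/-! ### Dehomogenisation -/

/-- The vector `(w, 1)`. -/
noncomputable def ext1 {N : ℕ} (w : Fin N → Qbar) : Fin (N + 1) → Qbar := Fin.snoc w 1

theorem ext1_ne_zero {N : ℕ} (w : Fin N → Qbar) : ext1 w ≠ 0 := by
  intro h
  have := congrFun h (Fin.last N)
  simp [ext1] at this

/-- Set the last homogeneous coordinate equal to `1`. -/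
noncomputable def deh {N : ℕ} (q : MvPolynomial (Fin (N + 1)) Qbar[X]) :
    MvPolynomial (Fin N) Qbar[X] :=
  MvPolynomial.aeval (Fin.snoc (fun i => MvPolynomial.X i) 1 : Fin (N + 1) →
    MvPolynomial (Fin N) Qbar[X]) q

theorem eval_deh {N : ℕ} (t : Qbar) (w : Fin N → Qbar)
    (q : MvPolynomial (Fin (N + 1)) Qbar[X]) :
    MvPolynomial.eval₂ (Polynomial.evalRingHom t) w (deh q) = valueQbar t (ext1 w) q := by
  unfold deh valueQbar ext1
  rw [← MvPolynomial.coe_eval₂Hom, ← MvPolynomial.coe_eval₂Hom]
  rw [MvPolynomial.aeval_def, ← MvPolynomial.coe_eval₂Hom]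
  rw [← RingHom.comp_apply]
  congr 1
  refine MvPolynomial.ringHom_ext ?_ ?_
  · intro r
    simp
  · intro i
    refine Fin.lastCases ?_ (fun j => ?_) i
    · simp
    · simp

/-- If a homogeneous polynomial does not vanish identically at the parameter `t`, it does not
vanish at some point whose last coordinate is `1`. -/
theorem exists_ext1 {N e : ℕ} (t : Qbar) (q : MvPolynomial (Fin (N + 1)) Qbar[X])
    (hq : q.IsHomogeneous e) (v : Fin (N + 1) → Qbar) (hv : valueQbar t v q ≠ 0) :
    ∃ w : Fin N → Qbar, valueQbar t (ext1 w) q ≠ 0 := by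
  set qt : MvPolynomial (Fin (N + 1)) Qbar := MvPolynomial.map (Polynomial.evalRingHom t) q
    with hqt
  have hval : ∀ u, valueQbar t u q = MvPolynomial.eval u qt := by
    intro u
    rw [hqt, MvPolynomial.eval_map]
    rfl
  have h1 : qt * MvPolynomial.X (Fin.last N) ≠ 0 := by
    refine mul_ne_zero ?_ (MvPolynomial.X_ne_zero _)
    intro h0
    apply hv
    rw [hval, h0, map_zero]
  obtain ⟨u, hu⟩ : ∃ u, MvPolynomial.eval u (qt * MvPolynomial.X (Fin.last N)) ≠ 0 := by
    by_contra hcon
    push Not at hcon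
    exact h1 (MvPolynomial.funext (by simpa using hcon))
  rw [map_mul, MvPolynomial.eval_X] at hu
  have hu1 : MvPolynomial.eval u qt ≠ 0 := left_ne_zero_of_mul hu
  have hu2 : u (Fin.last N) ≠ 0 := right_ne_zero_of_mul hu
  refine ⟨fun i => (u (Fin.last N))⁻¹ * u i.castSucc, ?_⟩
  have h2 : ext1 (fun i => (u (Fin.last N))⁻¹ * u i.castSucc) = (u (Fin.last N))⁻¹ • u := by
    funext i
    refine Fin.lastCases ?_ (fun j => ?_) i
    · simp [ext1, inv_mul_cancel₀ hu2]
    · simp [ext1]
  rw [h2, valueQbar_smul t _ u q hq, hval]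
  exact mul_ne_zero (pow_ne_zero _ (inv_ne_zero hu2)) hu1

theorem degreeOf_map_le' {σ R S : Type*} [CommSemiring R] [CommSemiring S] (φ : R →+* S)
    (q : MvPolynomial σ R) (i : σ) :
    (MvPolynomial.map φ q).degreeOf i ≤ q.degreeOf i := by
  rw [MvPolynomial.degreeOf_eq_sup, MvPolynomial.degreeOf_eq_sup]
  exact Finset.sup_mono (MvPolynomial.support_map_subset φ q)

/-- The specialisation of a nonzero polynomial vanishes for finitely many parameters only. -/
theorem finite_bad {N : ℕ} (q : MvPolynomial (Fin N) Qbar[X]) (hq : q ≠ 0) :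
    {t : Qbar | MvPolynomial.map (Polynomial.evalRingHom t) q = 0}.Finite := by
  classical
  obtain ⟨m, hm⟩ := MvPolynomial.ne_zero_iff.mp hq
  refine ((MvPolynomial.coeff m q).roots.toFinset.finite_toSet).subset ?_
  intro t ht
  simp only [Finset.mem_coe, Multiset.mem_toFinset]
  rw [Polynomial.mem_roots hm, Polynomial.IsRoot]
  have h1 := congrArg (MvPolynomial.coeff m) (show MvPolynomial.map (Polynomial.evalRingHom t) q = 0 from ht)
  rw [MvPolynomial.coeff_map, MvPolynomial.coeff_zero] at h1
  exact h1

/-- The field of definition of a point with given coordinates. -/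
theorem fieldOf_mk_le {N : ℕ} (v : Fin (N + 1) → Qbar) (hv : v ≠ 0)
    (K : IntermediateField ℚ Qbar) (hK : ∀ i, v i ∈ K) :
    fieldOf (Projectivization.mk Qbar v hv) ≤ K := by
  unfold fieldOf
  rw [IntermediateField.adjoin_le_iff]
  rintro z ⟨i, j, hj, rfl⟩
  obtain ⟨a, ha⟩ := Projectivization.exists_smul_eq_mk_rep Qbar v hv
  have ha0 : (a : Qbar) ≠ 0 := a.ne_zero
  have h1 : ∀ k, (Projectivization.mk Qbar v hv).rep k = (a : Qbar) * v k := by
    intro k
    rw [← ha]
    rfl
  rw [h1, h1, mul_div_mul_left _ _ ha0]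
  exact div_mem (hK i) (hK j)

theorem rank_fieldOf_le {N : ℕ} (v : Fin (N + 1) → Qbar) (hv : v ≠ 0)
    (K : IntermediateField ℚ Qbar) (hK : ∀ i, v i ∈ K) :
    Module.rank ℚ (fieldOf (Projectivization.mk Qbar v hv)) ≤ Module.rank ℚ K := by
  exact LinearMap.rank_le_of_injective
    (IntermediateField.inclusion (fieldOf_mk_le v hv K hK)).toLinearMap
    (IntermediateField.inclusion_injective (fieldOf_mk_le v hv K hK))

/-- The points `(u_0, …, u_n, y, 1)`. -/
theorem iterate_map {n d : ℕ} (hd : d ≠ 0) (t : Qbar) (w : Fin (n + 2) → Qbar) (j : ℕ) :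
    ((fam n d hd).map t)^[j] (Projectivization.mk Qbar (ext1 w) (ext1_ne_zero w)) =
      Projectivization.mk Qbar
        (ext1 (fun i => if i.val ≤ n then (g d t)^[j] (w i) else (w i) ^ (d ^ j)))
        (ext1_ne_zero _) := by
  induction j with
  | zero =>
    simp
  | succ j ih =>
    rw [Function.iterate_succ_apply', ih, map_mk, Projectivization.mk_eq_mk_iff']
    refine ⟨1, ?_⟩
    rw [one_smul]
    funext i
    refine Fin.lastCases ?_ (fun k => ?_) i
    · simp [G, ext1]
    · simp only [G, ext1, Fin.snoc_castSucc, Fin.snoc_last, Fin.val_castSucc]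
      split_ifs with hk
      · rw [Function.iterate_succ_apply', g, one_pow, mul_one]
      · rw [pow_succ, pow_mul, add_zero]

/-! ### Unboundedness -/

/-- The rational parameters `2 ^ (d ^ M)`. -/
noncomputable def T (d M : ℕ) : Qbar := algebraMap ℚ Qbar (2 ^ (d ^ M))

theorem T_injective {d : ℕ} (hd : 2 ≤ d) : Function.Injective (T d) := by
  intro a b hab
  have h1 : (2 : ℚ) ^ (d ^ a) = 2 ^ (d ^ b) := (algebraMap ℚ Qbar).injective hab
  have h2 : (2 : ℕ) ^ (d ^ a) = 2 ^ (d ^ b) := by exact_mod_cast h1
  exact Nat.pow_right_injective hd (Nat.pow_right_injective le_rfl h2)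

theorem T_ne_zero (d M : ℕ) : T d M ≠ 0 := by
  unfold T
  rw [Ne, map_eq_zero_iff _ (algebraMap ℚ Qbar).injective]
  positivity

theorem T_pow (d M j : ℕ) (hj : j ≤ M) : T d (M - j) ^ (d ^ j) = T d M := by
  unfold T
  rw [← map_pow, ← pow_mul, ← pow_add, Nat.sub_add_cancel hj]

theorem unbounded (n d : ℕ) (hd : 2 ≤ d) (V : Set (Qbar × Proj (n + 2)))
    (hV : IsZariskiClosed V) (hne : V ≠ Set.univ) :
    ∃ D : ℕ, 1 ≤ D ∧ ∀ C : ℕ, ∃ t : Qbar,
      Module.rank ℚ (IntermediateField.adjoin ℚ {t}) ≤ (D : Cardinal) ∧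
      ∃ F : Finset (Proj (n + 2)), C < F.card ∧
        ∀ x ∈ F, x ∈ Preim ((fam n d (by omega)).map t) ((mark n).point t) D ∧ (t, x) ∉ V := by
  classical
  have hd0 : d ≠ 0 := by omega
  obtain ⟨S, hS, rfl⟩ := hV
  obtain ⟨⟨t0, P0⟩, hz⟩ : ∃ z, z ∉ {z : Qbar × Proj (n + 2) | ∀ q ∈ S, valueQbar z.1 z.2.rep q = 0} := by
    by_contra hcon
    push Not at hcon
    exact hne (Set.eq_univ_of_forall hcon)
  simp only [Set.mem_ofPred_eq, not_forall] at hz
  obtain ⟨q, hqS, hqv⟩ := hz
  obtain ⟨e, hqe⟩ := hS q hqS
  obtain ⟨w0, hw0⟩ := exists_ext1 t0 q hqe P0.rep hqv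
  set q' := deh q with hq'
  have hq'0 : q' ≠ 0 := by
    intro h0
    apply hw0
    rw [← eval_deh, ← hq', h0, MvPolynomial.eval₂_zero]
  set m := q'.totalDegree with hm
  have hdegm : ∀ i, q'.degreeOf i ≤ m := fun i => MvPolynomial.degreeOf_le_totalDegree q' i
  refine ⟨d ^ (m + 1), Nat.one_le_pow _ _ (by omega), fun C => ?_⟩
  -- choose the parameter
  have hbad : {M : ℕ | MvPolynomial.map (Polynomial.evalRingHom (T d M)) q' = 0}.Finite :=
    (finite_bad q' hq'0).preimage (T_injective hd).injOn
  obtain ⟨M0, hM0⟩ := hbad.bddAbove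
  set M := max (M0 + 1) (2 * m + C + 1) with hM
  have hMgood : MvPolynomial.map (Polynomial.evalRingHom (T d M)) q' ≠ 0 := by
    intro h
    have h1 := hM0 (show M ∈ {M : ℕ | MvPolynomial.map (Polynomial.evalRingHom (T d M)) q' = 0}
      from h)
    have h2 : M0 + 1 ≤ M := le_max_left _ _
    omega
  have hMC : 2 * m + C + 1 ≤ M := le_max_right _ _
  set t : Qbar := T d M with ht
  set qt := MvPolynomial.map (Polynomial.evalRingHom t) q' with hqt
  have ht0 : t ≠ 0 := T_ne_zero d M
  obtain ⟨η, hηinj, hη0, hηs⟩ := exists_backward hd t ht0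
  set E : Finset Qbar := (Finset.range (m + 1)).image η with hE
  have hEcard : E.card = m + 1 := by
    rw [hE, Finset.card_image_of_injective _ hηinj, Finset.card_range]
  set J : Finset ℕ := Finset.Icc (m + 1) M with hJ
  set good : ℕ → Prop := fun j => ∃ w : Fin (n + 2) → Qbar,
    (∀ i, i.val ≤ n → w i ∈ E) ∧ (∀ i, ¬ i.val ≤ n → w i = T d (M - j)) ∧
      MvPolynomial.eval w qt ≠ 0 with hgood
  set Gd : Finset ℕ := J.filter good with hGd
  set Bd : Finset ℕ := J.filter (fun j => ¬ good j) with hBd
  have hBdcard : Bd.card ≤ m := by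
    by_contra hlt
    push Not at hlt
    apply hMgood
    refine MvPolynomial.eq_zero_of_eval_zero_at_prod_finset qt
      (fun i => if i.val ≤ n then E else Bd.image (fun j => T d (M - j))) ?_ ?_
    · intro i
      have h1 : qt.degreeOf i ≤ m := (degreeOf_map_le' _ q' i).trans (hdegm i)
      have hinj : Set.InjOn (fun j => T d (M - j)) (Bd : Set ℕ) := by
        intro a ha b hb hab
        have ha' : a ∈ J := (Finset.mem_filter.mp ha).1
        have hb' : b ∈ J := (Finset.mem_filter.mp hb).1
        rw [hJ, Finset.mem_Icc] at ha' hb'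
        have := T_injective hd hab
        omega
      show qt.degreeOf i < (if i.val ≤ n then E else Bd.image (fun j => T d (M - j))).card
      split_ifs
      · rw [hEcard]
        omega
      · rw [Finset.card_image_of_injOn hinj]
        omega
    · intro w hw
      by_contra hne0
      have hlast : ∃ j ∈ Bd, T d (M - j) = w (Fin.last (n + 1)) := by
        have := hw (Fin.last (n + 1))
        simpa using this
      obtain ⟨j, hjB, hj⟩ := hlast
      have hjn : ¬ good j := (Finset.mem_filter.mp hjB).2
      apply hjn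
      refine ⟨w, ?_, ?_, hne0⟩
      · intro i hi
        have := hw i
        simpa [hi] using this
      · intro i hi
        have : i = Fin.last (n + 1) := by
          apply Fin.ext
          have := i.isLt
          simp only [Fin.val_last]
          omega
        rw [this, hj]
  have hJcard : J.card = M - m := by
    rw [hJ, Nat.card_Icc]
    omega
  have hGdcard : C < Gd.card := by
    have h1 : Gd.card + Bd.card = J.card := Finset.card_filter_add_card_filter_not _
    omega
  have hGprop : ∀ j ∈ Gd, good j := fun j hj => (Finset.mem_filter.mp hj).2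
  choose! W hWE hWT hWne using hGprop
  refine ⟨t, ?_, Gd.image (fun j => Projectivization.mk Qbar (ext1 (W j)) (ext1_ne_zero _)), ?_, ?_⟩
  · -- the parameter is rational
    have h1 : IntermediateField.adjoin ℚ {t} = ⊥ := by
      rw [IntermediateField.adjoin_simple_eq_bot_iff]
      exact IntermediateField.algebraMap_mem _ _
    rw [h1, IntermediateField.rank_bot]
    exact_mod_cast Nat.one_le_pow _ _ (by omega)
  · rw [Finset.card_image_of_injOn]
    · exact hGdcard
    · intro a ha b hb hab
      have ha' : a ∈ J := (Finset.mem_filter.mp ha).1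
      have hb' : b ∈ J := (Finset.mem_filter.mp hb).1
      rw [hJ, Finset.mem_Icc] at ha' hb'
      simp only at hab
      rw [Projectivization.mk_eq_mk_iff'] at hab
      obtain ⟨c, hc⟩ := hab
      have h1 := congrFun hc (Fin.last (n + 2))
      simp [ext1] at h1
      rw [h1, one_smul] at hc
      have h2 := congrFun hc (Fin.castSucc (Fin.last (n + 1)))
      simp only [ext1, Fin.snoc_castSucc] at h2
      rw [hWT b hb _ (by simp), hWT a ha _ (by simp)] at h2
      have := T_injective hd h2
      omega
  · intro x hx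
    obtain ⟨j, hj, rfl⟩ := Finset.mem_image.mp hx
    have hj' : j ∈ J := (Finset.mem_filter.mp hj).1
    rw [hJ, Finset.mem_Icc] at hj'
    refine ⟨⟨?_, j, ?_⟩, ?_⟩
    · refine (rank_fieldOf_le _ _ (IntermediateField.adjoin ℚ {η m}) ?_).trans
        (rank_adjoin_backward hd hη0 hηs m)
      intro i
      refine Fin.lastCases ?_ (fun k => ?_) i
      · simp only [ext1, Fin.snoc_last]
        exact one_mem _
      · simp only [ext1, Fin.snoc_castSucc]
        by_cases hk : k.val ≤ n
        · obtain ⟨l, hl, hl2⟩ := Finset.mem_image.mp (hWE j hj k hk)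
          rw [← hl2]
          exact mem_adjoin_of_backward hηs m l (by simpa [Nat.lt_succ_iff] using hl)
        · rw [hWT j hj k hk]
          exact IntermediateField.algebraMap_mem _ _
    · rw [iterate_map]
      unfold MarkedPoint.point
      rw [Projectivization.mk_eq_mk_iff']
      refine ⟨1, ?_⟩
      rw [one_smul]
      funext i
      refine Fin.lastCases ?_ (fun k => ?_) i
      · simp [ext1, mark]
      · simp only [ext1, Fin.snoc_castSucc, mark, Fin.val_castSucc]
        rw [if_pos (by have := k.isLt; omega)]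
        rw [Polynomial.aeval_X]
        split_ifs with hk
        · obtain ⟨l, hl, hl2⟩ := Finset.mem_image.mp (hWE j hj k hk)
          rw [← hl2, iterate_of_backward hη0 hηs l j]
          have : l < m + 1 := by simpa using hl
          omega
        · rw [hWT j hj k hk, T_pow d M j hj'.2]
    · intro hmem
      have h1 := hmem q hqS
      simp only at h1
      obtain ⟨a, ha⟩ := Projectivization.exists_smul_eq_mk_rep Qbar (ext1 (W j)) (ext1_ne_zero _)
      rw [← ha] at h1
      have h2 : valueQbar t ((a : Qbar) • ext1 (W j)) q = 0 := h1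
      rw [valueQbar_smul t _ _ q hqe] at h2
      rcases mul_eq_zero.mp h2 with h | h
      · exact pow_ne_zero _ a.ne_zero h
      · rw [← eval_deh, ← hq'] at h
        apply hWne j hj
        rw [hqt, MvPolynomial.eval_map]
        exact h

/-- For all `N ≥ 2` and `d ≥ 2` there are a family `f` of degree `d` endomorphisms of projective
`N`-space over the affine line and a marked point `a`, both defined over `ℚ`, such that `f` is
maximal varying and such that, for every proper Zariski-closed subset `V` of the product of the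
affine line and projective `N`-space, there is `D ≥ 1` for which the number of iterated preimages
`x` of `a_t` under `f_t` of degree at most `D` with `(t, x)` outside `V` is unbounded as `t` varies
over the algebraic parameters of degree at most `D`. -/
theorem result (N d : ℕ) (hN : 2 ≤ N) (hd : 2 ≤ d) :
    ∃ (f : Family N d) (a : MarkedPoint N), f.MaximalVarying ∧
      ∀ V : Set (Qbar × Proj N), IsZariskiClosed V → V ≠ Set.univ →
        ∃ D : ℕ, 1 ≤ D ∧ ∀ C : ℕ, ∃ t : Qbar,
          Module.rank ℚ (IntermediateField.adjoin ℚ {t}) ≤ (D : Cardinal) ∧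
          ∃ F : Finset (Proj N), C < F.card ∧
            ∀ x ∈ F, x ∈ Preim (f.map t) (a.point t) D ∧ (t, x) ∉ V := by
  obtain ⟨n, rfl⟩ := Nat.exists_eq_add_of_le' hN
  exact ⟨fam n d (by omega), mark n, fam_maximalVarying hd, fun V hV hne =>
    unbounded n d hd V hV hne⟩

end Pool.Agent.Results.MP_2d1f13_nt.Disproof
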